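import Pool.Agent.H77.SSA.Basic

/-!
Statements of the modules about the forcing (native part).
-/

set_option linter.unusedVariables false

namespace SSA

open Filter

/-- SIM: validity is not changed by finitely many legal changes of statuses -/
def SIMStmt : Prop := ∀ (A : Set Crd) (p q : RC), VA A p → q.Sim p → VA A q

/-- LIFT: a finite change can be made at the weaker condition -/
def LIFTStmt : Prop := ∀ p q q' : RC, p.Lg → q.Le p → q'.Sim q → ∃ p' : RC, p'.Sim p ∧ q'.Le p'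

/-- MONO: the requirements are inherited by stronger conditions -/
def MONOStmt : Prop := ∀ (g : Crd) (p q : RC) (ξ : Om), (p.res (Dep g)).Lg → g ∈ p.Z → ξ < p.ht →
  q.Le p → Cl (VA (Dep g)) g p ξ → Cl (VA (Dep g)) g q ξ

/-- RES: restrictions are valid -/
def RESStmt : Prop := ∀ (A B : Set Crd) (p : RC), Clo B → VA A p → VA B (p.res B)

/-- HX: new functions avoiding the promises do no harm -/
def HXStmt : Prop := ∀ (g : Crd) (p q : RC), q.Le p → q.VG → g ∈ p.Z → q.dl g = p.dl g →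
  (∀ n k, q.st g n k = p.st g n k) → p.VC g → q.VC g

/-- EXT: validity of extensions -/
def EXTStmt : Prop := ∀ (A : Set Crd) (p q : RC), VA A p → q.Le p → q.VG → q.Z ⊆ A →
  (∀ g ∈ q.Z, (g ∈ p.Z ∧ q.dl g = p.dl g ∧ ∀ n k, q.st g n k = p.st g n k) ∨
    (q.VC g ∧ Ok g q)) → VA A q

/-- AM: amalgamation -/
def AMStmt : Prop := ∀ (A B : Set Crd) (p r : RC), Clo B → B ⊆ A → VA A p → VA B r →
  r.Le (p.res B) → VA A (r.am p) ∧ (r.am p).Le p ∧ (r.am p).Le r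

/-- XSEQ: almost disjoint functions avoiding countably many slaloms -/
def XSEQStmt : Prop := ∀ (I : Set Om) (F : Set (ℕ → ℕ)) (Q : Set Sl), I.Countable → F.Countable →
  Q.Countable → (∀ S ∈ Q, ∀ k, (S k).card ≤ k) → ∃ x : Om → ℕ → ℕ, (∀ ξ ∈ I, ∀ k, x ξ k < nb k) ∧
    (∀ ξ ∈ I, ∀ S ∈ Q, ∀ᶠ k in atTop, x ξ k ∉ S k) ∧
    (∀ ξ ∈ I, ∀ f ∈ F, ∀ᶠ k in atTop, x ξ k ≠ f k) ∧
    ∀ ξ ∈ I, ∀ η ∈ I, ξ ≠ η → ∀ᶠ k in atTop, x ξ k ≠ x η k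

/-- XX: the height can be raised to any value, with prescribed functions `z` -/
def XXStmt : Prop := ∀ (A : Set Crd) (p : RC), VA A p → ∀ h, p.ht ≤ h → ∀ zz : Om → ℕ → ℕ,
  ∃ q : RC, VA A q ∧ q.Le p ∧ q.ht = h ∧ (∀ ξ, p.ht ≤ ξ → ξ < h → q.z ξ = zz ξ) ∧ q.Z = p.Z

/-- ACT: good coordinates can be activated -/
def ACTStmt : Prop := ∀ (A : Set Crd) (p : RC) (g : Crd), VA A p → g ∈ A → Gd g →
  ∃ q : RC, VA A q ∧ q.Le p ∧ g ∈ q.Z ∧ q.ht = p.ht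

/-- DECF: a dense set is reached after all decisions on a finite set of positions -/
def DECFStmt : Prop := ∀ (A : Set Crd) (D : RC → ℕ → Prop),
  (∀ r, VA A r → ∃ (s : RC) (m : ℕ), VA A s ∧ s.Le r ∧ D s m) →
  (∀ r s m, VA A r → VA A s → s.Le r → D r m → D s m) → ∀ p, VA A p → ∀ Ψ, PosIn Ψ p →
  ∃ (q : RC) (M : ℕ), VA A q ∧ LeF Ψ q p ∧ ∀ τ, DecOn Ψ τ → VA A (q.put Ψ τ) ∧
    ∃ m ≤ M, D (q.put Ψ τ) m

/-- CATCH: every condition below a finite change `q'` of `q` is compatible with one of the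
decisions -/
def CATCHStmt : Prop := ∀ (A : Set Crd) (q q' : RC) (Ψ : Finset Pos), VA A q → q'.Sim q →
  PosIn Ψ q → (∀ g ∈ q.Z, ∀ n k, (g, n, k) ∉ Ψ → q'.st g n k = q.st g n k) →
  ∀ r, VA A r → r.Le q' → ∃ (s : RC) (τ : Pos → St), VA A s ∧ s.Le r ∧ DecOn Ψ τ ∧
    s.Le (q.put Ψ τ)

/-- LIM: limits of fusion sequences -/
def LIMStmt : Prop := ∀ (A : Set Crd) (p : ℕ → RC) (Ψ : ℕ → Finset Pos), (∀ i, VA A (p i)) →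
  (∀ i, LeF (Ψ i) (p (i + 1)) (p i)) → (∀ i, Ψ i ⊆ Ψ (i + 1)) → (∀ i, PosIn (Ψ i) (p i)) →
  (∀ i, ∀ g ∈ (p i).Z, ∀ n N, ∃ j, i ≤ j ∧ ∃ k B, N ≤ k ∧ (g, n, k) ∈ Ψ j ∧
    (p j).st g n k = .opn B ∧ (Finset.range (nb k) \ B).card + N ≤ k) →
  (∀ i, ∀ g ∈ (p i).Z, ∀ ξ < (p i).ht, ∃ j, i ≤ j ∧ ξ < (p j).dl g) →
  ∃ q : RC, VA A q ∧ (∀ i, LeF (Ψ i) q (p i)) ∧ ∀ g ∈ q.Z, ∃ i, g ∈ (p i).Z

/-- FUS: general fusion. Every task `Q s Ψ` is met at the stage `s` with a finite set `Ψ s` of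
frozen positions, and every position is frozen eventually. -/
def FUSStmt : Prop := ∀ (A : Set Crd), (∀ g ∈ A, D2 A g) → ∀ Q : ℕ → Finset Pos → RC → Prop,
  (∀ s Ψ p, VA A p → PosIn Ψ p → ∃ q, VA A q ∧ LeF Ψ q p ∧ Q s Ψ q) →
  ∀ p, VA A p → ∀ Φ, PosIn Φ p →
  ∃ (ps : ℕ → RC) (Ψs : ℕ → Finset Pos) (q : RC), VA A q ∧ LeF Φ q p ∧
    (∀ s, VA A (ps s) ∧ PosIn (Ψs s) (ps s) ∧ Q s (Ψs s) (ps s) ∧ LeF (Ψs s) q (ps s)) ∧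
    ∀ g ∈ q.Z, ∀ n k, ∃ s0, ∀ s, s0 ≤ s → (g, n, k) ∈ Ψs s

/-- BND: the bounding lemma -/
def BNDStmt : Prop := ∀ A : Set Crd, (∀ g ∈ A, D2 A g) → Bnd A

/-- SLOW: slow functions -/
def SLOWStmt : Prop := ∀ g : ℕ → ℕ → ℕ, ∃ h : ℕ → ℕ, (∀ m, ∀ᶠ k in atTop, m ≤ h k) ∧
  ∀ t, ∀ᶠ k in atTop, ∀ i < h k, g t i ≤ k

/-- D2C: the combinatorial step for one coordinate and one `n`. The statuses `st` are made
stronger: hits for the functions `y j`, `j ≤ n`, above the bounds `m j`, elsewhere slowly growing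
sets of values of the functions `y i` are removed. -/
def D2CStmt : Prop := ∀ (st : ℕ → St) (y : ℕ → ℕ → ℕ) (W : Set (ℕ → ℕ)) (Θ : Finset ℕ)
  (m : ℕ → ℕ) (S : Sl) (n : ℕ), W.Countable → (∀ k, (st k).leg (nb k)) →
  (∀ i, ∃ᶠ k in atTop, ∃ B, st k = .opn B ∧ y i k ∈ B) →
  (∀ i, ∀ᶠ k in atTop, st k ≠ .hit (y i k)) →
  (∀ w ∈ W, (∀ k, w k < nb k) ∧ (∀ᶠ k in atTop, w k ∉ S k) ∧ ∀ i, ∀ᶠ k in atTop, w k ≠ y i k) →
  (∀ N, ∃ k, N ≤ k ∧ ∃ B, st k = .opn B ∧ Finset.range (nb k) \ B ⊆ S k ∧ (S k).card + N ≤ k) →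
  ∃ (st' : ℕ → St) (S' : Sl), (∀ k, (st' k).le (st k)) ∧ (∀ k ∈ Θ, st' k = st k) ∧
    {k | ∃ i, st' k = .hit i ∧ st k ≠ .hit i}.Finite ∧
    (∀ j ≤ n, ∃ k, m j ≤ k ∧ st' k = .hit (y j k)) ∧
    (∀ i, ∀ᶠ k in atTop, (st' k).excl (y i k)) ∧
    (∀ w ∈ W, ∃ᶠ k in atTop, ∃ B, st' k = .opn B ∧ w k ∈ B) ∧ (∀ k, (S' k).card ≤ k) ∧
    ∀ N, ∃ k, N ≤ k ∧ ∃ B, st' k = .opn B ∧ Finset.range (nb k) \ B ⊆ S' k ∧
      (S' k).card + N ≤ k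

/-- D2S: raising the bound at one coordinate -/
def D2SStmt : Prop := ∀ (A : Set Crd) (g : Crd), Clo A → g ∈ A → Bnd (Dep g) → D2 A g

/-- IND: the bounding lemma for all closed sets -/
def INDStmt : Prop := ∀ A : Set Crd, Clo A → (∀ g ∈ A, D2 A g) ∧ Bnd A

/-- ENC: conditions are coded by data and sequences -/
def ENCStmt : Prop := ∀ (ev : K → Crd) (q : RC), VA Set.univ q → q.Z ⊆ Set.range ev →
  ∃ (d : Dat) (ts : ℕ → K), VA Set.univ (deco d (fun i => ev (ts i))) ∧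
    (deco d (fun i => ev (ts i))).Le q ∧ q.Le (deco d (fun i => ev (ts i))) ∧
    (deco d (fun i => ev (ts i))).Z = q.Z

/-- a name of a function from `Om` to functions from `ℕ` to `ℕ` -/
structure Nam2 (R : RC → Om → ℕ → ℕ → Prop) : Prop where
  dense : ∀ ξ n r, VA Set.univ r → ∃ (s : RC) (m : ℕ), VA Set.univ s ∧ s.Le r ∧ R s ξ n m
  mono : ∀ ξ n m (r s : RC), VA Set.univ r → VA Set.univ s → s.Le r → R r ξ n m → R s ξ n m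

/-- EVAL: a set of coordinates indexed by `K`, closed under children and witnesses -/
def EVALStmt : Prop := ∀ R : RC → Om → ℕ → ℕ → Prop, Nam2 R → ∃ ev : K → Crd,
  (∀ t a, Chd a (ev t) → ∃ t', ev t' = a) ∧
  ∀ p, VA Set.univ p → p.Z ⊆ Set.range ev → ∀ ξ n, ∃ (q : RC) (m : ℕ), VA Set.univ q ∧
    q.Z ⊆ Set.range ev ∧ q.Le p ∧ R q ξ n m

/-- GAM: every name is given by a good coordinate -/
def GAMStmt : Prop := ∀ R : RC → Om → ℕ → ℕ → Prop, Nam2 R → ∃ g : Crd, Gd g ∧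
  ∀ ξ n κ, VA Set.univ (pre g ξ n κ) ∧ R (pre g ξ n κ) ξ n (g.val ξ n κ)

/-! ### the interface -/

instance : Preorder PP where
  le q p := q.1.Le p.1
  le_refl p := RC.Le.refl p.1
  le_trans r q p h h' := RC.Le.trans h h'

theorem PP.le_def (q p : PP) : q ≤ p ↔ q.1.Le p.1 := Iff.rfl

/-- The properties of the forcing used in the extension. `ar p ξ v`: `p` forces that `v` is in the
set number `ξ` of the almost disjoint family; `zr p ξ n v`: `p` forces that the value of the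
function number `ξ` at `n` is `v`. -/
structure SData (P : Type) [Preorder P] (Ω : Type) where
  ar : P → Ω → ℕ → Prop
  zr : P → Ω → ℕ → ℕ → Prop
  ar_mono : ∀ {p q : P} {ξ v}, q ≤ p → ar p ξ v → ar q ξ v
  zr_mono : ∀ {p q : P} {ξ n v}, q ≤ p → zr p ξ n v → zr q ξ n v
  zr_fun : ∀ {p : P} {ξ n v v'}, zr p ξ n v → zr p ξ n v' → v = v'
  zr_tot : ∀ (p : P) ξ n, ∃ q, q ≤ p ∧ ∃ v, zr q ξ n v
  ar_inf : ∀ (p : P) ξ N, ∃ q, q ≤ p ∧ ∃ v, N ≤ v ∧ ar q ξ v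
  ar_ad : ∀ (p : P) ξ η, ξ ≠ η → ∃ q, q ≤ p ∧ ∃ N, ∀ v, N ≤ v → ∀ r, r ≤ q →
    ¬ (ar r ξ v ∧ ar r η v)
  /-- every function is dominated by one of the functions `z ξ` -/
  dom : ∀ R : P → ℕ → ℕ → Prop, (∀ n p, ∃ q, q ≤ p ∧ ∃ m, R q n m) →
    (∀ n m p q, q ≤ p → R p n m → R q n m) → ∀ p, ∃ q, q ≤ p ∧ ∃ ξ, ∀ n, ∀ r, r ≤ q →
      ∃ s, s ≤ r ∧ ∃ m v, m ≤ v ∧ R s n m ∧ zr s ξ n v
  /-- selectivity -/
  ssa : ∀ R : P → Ω → ℕ → ℕ → Prop, (∀ ξ n p, ∃ q, q ≤ p ∧ ∃ m, R q ξ n m) →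
    (∀ ξ n m p q, q ≤ p → R p ξ n m → R q ξ n m) → ∃ H : P → ℕ → ℕ → Prop,
      (∀ n v p q, q ≤ p → H p n v → H q n v) ∧
      (∀ p ξ n, ∃ q, q ≤ p ∧ ∃ N, ∀ v, N ≤ v → ∀ r, r ≤ q → ¬ (H r n v ∧ ar r ξ v)) ∧
      ∀ p ξ, ∃ q, q ≤ p ∧ ∃ n m v, m ≤ v ∧ R q ξ n m ∧ H q n v ∧ ar q ξ v

/-- the condition decides that `v` is a member of the set number `ξ` -/
def arP (p : PP) (ξ : Om) (v : ℕ) : Prop := ξ < p.1.ht ∧ ∃ k, v = Nat.pair k (p.1.x ξ k)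

/-- the condition decides that the function number `ξ` has the value `v` at `n` -/
def zrP (p : PP) (ξ : Om) (n v : ℕ) : Prop := ξ < p.1.ht ∧ p.1.z ξ n = v

/-- AD: the simple properties of the interface -/
def ADStmt : Prop := (∃ p : PP, True) ∧
  (∀ (p q : PP) (ξ : Om) (v : ℕ), q ≤ p → arP p ξ v → arP q ξ v) ∧
  (∀ (p q : PP) (ξ : Om) (n v : ℕ), q ≤ p → zrP p ξ n v → zrP q ξ n v) ∧
  (∀ (p : PP) (ξ : Om) (n : ℕ), ∃ q, q ≤ p ∧ ∃ v, zrP q ξ n v) ∧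
  (∀ (p : PP) (ξ : Om) (N : ℕ), ∃ q, q ≤ p ∧ ∃ v, N ≤ v ∧ arP q ξ v) ∧
  ∀ (p : PP) (ξ η : Om), ξ ≠ η → ∃ q, q ≤ p ∧ ∃ N, ∀ v, N ≤ v → ∀ r, r ≤ q →
    ¬ (arP r ξ v ∧ arP r η v)

/-- DOM: the functions `z ξ` are dominating -/
def DOMStmt : Prop := ∀ R : PP → ℕ → ℕ → Prop, (∀ n p, ∃ q, q ≤ p ∧ ∃ m, R q n m) →
    (∀ n m p q, q ≤ p → R p n m → R q n m) → ∀ p : PP, ∃ q, q ≤ p ∧ ∃ ξ : Om, ∀ n, ∀ r, r ≤ q →
      ∃ s, s ≤ r ∧ ∃ m v, m ≤ v ∧ R s n m ∧ zrP s ξ n v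

/-- SEL: selectivity -/
def SELStmt : Prop := ∀ R : PP → Om → ℕ → ℕ → Prop, (∀ ξ n p, ∃ q, q ≤ p ∧ ∃ m, R q ξ n m) →
    (∀ ξ n m p q, q ≤ p → R p ξ n m → R q ξ n m) → ∃ H : PP → ℕ → ℕ → Prop,
      (∀ n v p q, q ≤ p → H p n v → H q n v) ∧
      (∀ p ξ n, ∃ q, q ≤ p ∧ ∃ N, ∀ v, N ≤ v → ∀ r, r ≤ q → ¬ (H r n v ∧ arP r ξ v)) ∧
      ∀ p ξ, ∃ q, q ≤ p ∧ ∃ n m v, m ≤ v ∧ R q ξ n m ∧ H q n v ∧ arP q ξ v

/-- the data given by the conditions -/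
def sdata (h1 : ADStmt) (h2 : DOMStmt) (h3 : SELStmt) : SData PP Om where
  ar := arP
  zr := zrP
  ar_mono h := h1.2.1 _ _ _ _ h
  zr_mono h := h1.2.2.1 _ _ _ _ _ h
  zr_fun h h' := h.2.symm.trans h'.2
  zr_tot := h1.2.2.2.1
  ar_inf := h1.2.2.2.2.1
  ar_ad := h1.2.2.2.2.2
  dom := h2
  ssa := h3

end SSA
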