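import Pool.Agent.H77.SSA.Core
import Pool.Agent.H77.SSA.Stmts
import Pool.Agent.H78.CUR.COD

/-!
Names for the trivial group, the names used, the statements of the modules about the generic
quotient (G) and about the theory inside the quotient (T).
-/

set_option linter.unusedVariables false
set_option synthInstance.maxSize 100000

namespace SSA

open SW CU CUR

/-! ### the trivial symmetric system -/

/-- the trivial group -/
def Tg : Type := Unit

instance : Group Tg where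
  mul _ _ := ()
  one := ()
  inv _ := ()
  mul_assoc _ _ _ := rfl
  one_mul _ := rfl
  mul_one _ := rfl
  inv_mul_cancel _ := rfl

instance trivAct (P : Type) : MulAction Tg P where
  smul _ p := p
  one_smul _ := rfl
  mul_smul _ _ _ := rfl

instance trivSys (P : Type) [Preorder P] : SymSys P Tg where
  mono _ _ _ h := h
  Sp := Unit
  Fix _ := ⊤
  S0 := ()
  dir _ _ := ⟨(), fun _ _ => ⟨Subgroup.mem_top _, Subgroup.mem_top _⟩⟩
  normal _ _ := ⟨(), fun _ _ => Subgroup.mem_top _⟩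

section
variable {P : Type} [Preorder P]

theorem act_triv (g : Tg) (a : Nm P) : act g a = a := by
  induction a with
  | mk ι x c ih =>
    show Nm.mk ι (fun i => act g (x i)) (fun i => g • c i) = _
    have h1 : (fun i => act g (x i)) = x := funext ih
    rw [h1]
    rfl

theorem hr_triv (a : Nm P) : HR Tg a := by
  induction a with
  | mk ι x c ih => exact ⟨⟨(), fun g _ p => by rw [act_triv]; exact eqF_refl _ _⟩, ih⟩

/-- every name is allowed -/
def hn (a : Nm P) : HN P Tg := ⟨a, hr_triv a⟩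

theorem hn_eta (a : HN P Tg) : hn a.1 = a := rfl

/-- the name of a relation given by the conditions -/
def relN (ι : Type) (Q : P → ι → Prop) (x : ι → HN P Tg) : HN P Tg :=
  hn (.mk {t : P × ι // Q t.1 t.2} (fun t => (x t.1.2).1) (fun t => t.1.1))

section
variable {Ω : Type} [LinearOrder Ω] [WellFoundedLT Ω]

/-- the name of the ordinal `ξ` -/
noncomputable def chk : Ω → Nm P :=
  (wellFounded_lt (α := Ω)).fix (fun ξ ih => famN (fun η : {η : Ω // η < ξ} => ih η.1 η.2))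

theorem chk_eq (ξ : Ω) : (chk ξ : Nm P) = famN (fun η : {η : Ω // η < ξ} => chk η.1) :=
  WellFounded.fix_eq _ _ _

/-- the name of the ordinal `ξ` -/
noncomputable def chkH (ξ : Ω) : HN P Tg := hn (chk ξ)

variable (P Ω) in
/-- the name of the index set -/
noncomputable def oN : HN P Tg := hn (famN (fun ξ : Ω => (chk ξ : Nm P)))

/-- the name of the set of all pairs `(ξ, v)` with `v` in the set number `ξ` -/
noncomputable def aN (D : SData P Ω) : HN P Tg := relN (Ω × ℕ) (fun p i => D.ar p i.1 i.2)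
  (fun i => opN (chkH i.1) (numH P Tg i.2))

/-- the name of the set of all triples `(ξ, (n, v))` such that `v` is the value at `n` of the
function number `ξ` -/
noncomputable def zN (D : SData P Ω) : HN P Tg :=
  relN (Ω × ℕ × ℕ) (fun p i => D.zr p i.1 i.2.1 i.2.2)
    (fun i => opN (chkH i.1) (opN (numH P Tg i.2.1) (numH P Tg i.2.2)))

/-- the name of the set of all pairs `(n, v)` given by `H` -/
def hN (H : P → ℕ → ℕ → Prop) : HN P Tg := relN (ℕ × ℕ) (fun p i => H p i.1 i.2)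
  (fun i => opN (numH P Tg i.1) (numH P Tg i.2))

end

/-- the sequence contains the names of the natural numbers -/
def Rich (ν : ℕ → HN P Tg) : Prop := (∀ n, ∃ j, ν j = numH P Tg n) ∧ ∃ j, ν j = omH P Tg

/-- the condition forces that `i` is related, in the relation given by `Q` -/
def Fo {ι : Type} (Q : P → ι → Prop) (p : P) (i : ι) : Prop := ∀ q, q ≤ p → ∃ r, r ≤ q ∧ Q r i

end

/-! ### statements about the quotient -/

/-- CHO: the generic quotient for the trivial group satisfies the axiom of choice -/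
def CHOStmt : Prop := ∀ (P : Type) [Preorder P] (ν : ℕ → HN P Tg) (c : ℕ → P), Gn ν c →
  ZFC (GQ ν c)

/-- NMI: injectivity of names -/
def NMIStmt : Prop := ∀ (P : Type) [Preorder P],
  (∀ (m n : ℕ) (p : P), EqF (numN m : Nm P) (numN n) p → m = n) ∧
  (∀ (a b a' b' : HN P Tg) (p : P), EqF (opN a b).1 (opN a' b').1 p →
    EqF a.1 a'.1 p ∧ EqF b.1 b'.1 p) ∧
  ∀ (Ω : Type) [LinearOrder Ω] [WellFoundedLT Ω] (ξ η : Ω) (p : P),
    EqF (chk ξ : Nm P) (chk η) p → ξ = η

/-- REL: membership in names of relations -/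
def RELStmt : Prop := ∀ (P : Type) [Preorder P] (ι : Type) (Q : P → ι → Prop) (x : ι → HN P Tg),
  (∀ p q i, q ≤ p → Q p i → Q q i) → (∀ i j p, EqF (x i).1 (x j).1 p → i = j) →
  ∀ i p, MemF (x i).1 (relN ι Q x).1 p ↔ Fo Q p i

/-- PIN: forced statements about pairs and triples -/
def PINStmt : Prop := ∀ (P : Type) [Preorder P] (p : P) (a b d e : HN P Tg),
  (FS (fun N _ (w : Fin 3 → N) => PairIn (w 0) (w 1) (w 2)) p ![a, b, d] ↔
    MemF (opN a b).1 d.1 p) ∧
  (FS (fun N _ (w : Fin 4 → N) => Trr (w 0) (w 1) (w 2) (w 3)) p ![a, b, d, e] ↔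
    MemF (opN a (opN b d)).1 e.1 p)

/-- BAS: the natural numbers of a generic quotient -/
def BASStmt : Prop := ∀ (P : Type) [Preorder P] (ν : ℕ → HN P Tg) (c : ℕ → P), Gn ν c → Rich ν →
  ∀ [ZF (GQ ν c)], (∀ x : GQ ν c, E x om → ∃ n, x = nu n) ∧
    (∀ m n, ν m = numH P Tg n → qc ν c m = nu n) ∧ ∀ m, ν m = omH P Tg → qc ν c m = om

/-- EVA: values of the names in the generic quotient -/
def EVAStmt : Prop := ∀ (P : Type) [Preorder P] (Ω : Type) [LinearOrder Ω] [WellFoundedLT Ω]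
  (D : SData P Ω) (ν : ℕ → HN P Tg) (c : ℕ → P), Gn ν c → Rich ν → ∀ [ZF (GQ ν c)],
  (∀ o, ν o = oN P Ω → ∀ y, E y (qc ν c o) ↔ ∃ (ξ : Ω) (m : ℕ), ν m = chkH ξ ∧ y = qc ν c m) ∧
  (∀ (m m' : ℕ) (ξ ξ' : Ω), ν m = chkH ξ → ν m' = chkH ξ' → (qc ν c m = qc ν c m' ↔ ξ = ξ')) ∧
  (∀ (b m : ℕ) (ξ : Ω) (v : ℕ), ν b = aN D → ν m = chkH ξ →
    (E (opair (qc ν c m) (nu v)) (qc ν c b) ↔
      ∃ k, Fo (fun p (i : Ω × ℕ) => D.ar p i.1 i.2) (c k) (ξ, v))) ∧
  (∀ (b m : ℕ) (ξ : Ω) (n v : ℕ), ν b = zN D → ν m = chkH ξ →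
    (E (opair (qc ν c m) (opair (nu n) (nu v))) (qc ν c b) ↔
      ∃ k, Fo (fun p (i : Ω × ℕ × ℕ) => D.zr p i.1 i.2.1 i.2.2) (c k) (ξ, n, v))) ∧
  ∀ (H : P → ℕ → ℕ → Prop), (∀ n v p q, q ≤ p → H p n v → H q n v) → ∀ (b n v : ℕ), ν b = hN H →
    (E (opair (nu n) (nu v)) (qc ν c b) ↔
      ∃ k, Fo (fun p (i : ℕ × ℕ) => H p i.1 i.2) (c k) (n, v))

/-- GET: a forced density argument: if `R` holds in all rich generic quotients through the
conditions of a set `V` which is dense below some `c k`, then it holds in the quotient -/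
def GETStmt : Prop := ∀ (P : Type) [Preorder P] (ν : ℕ → HN P Tg) (c : ℕ → P), Gn ν c →
  ∀ {n : ℕ} (R : ∀ (N : Type) [SetStr N], (Fin n → N) → Prop) [UDf R] (w : Fin n → ℕ) (k : ℕ)
    (V : P → Prop), (∀ q, q ≤ c k → ∃ r, r ≤ q ∧ V r) →
    (∀ r, V r → r ≤ c k → ∃ η : ℕ → HN P Tg, ∀ (ν' : ℕ → HN P Tg) (c' : ℕ → P), Gn ν' c' →
      Rich ν' → (∃ l, c' l ≤ r) → ∀ w' : Fin n → ℕ, (∀ i, ν' (w' i) = ν (w i)) →
      ∀ u : ℕ → ℕ, (∀ i, ν' (u i) = η i) → R (GQ ν' c') (fun i => qc ν' c' (w' i))) →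
    R (GQ ν c) (fun i => qc ν c (w i))

/-- The interface: `o` is the index set, `A` the set of all pairs `(x, v)` with `v` in the set
number `x`, `Z` the set of all triples `(x, (n, v))` such that `v` is the value at `n` of the
function number `x`. -/
structure Ifc (N : Type) [SetStr N] [ZF N] (o A Z : N) : Prop where
  std : ∀ y : N, E y om → ∃ n, y = nu n
  inf : ∀ x, E x o → ∀ m : ℕ, ∃ n, m ≤ n ∧ E (opair x (nu n)) A
  ad : ∀ x y, E x o → E y o → x ≠ y → ∃ m : ℕ, ∀ n, m ≤ n →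
    ¬ (E (opair x (nu n)) A ∧ E (opair y (nu n)) A)
  zf : ∀ x, E x o → ∀ n : ℕ, ∃ v : ℕ, E (opair x (opair (nu n) (nu v))) Z ∧
    ∀ v', E (opair x (opair (nu n) (nu v'))) Z → v' = v
  dom : ∀ g : N, (∀ n : ℕ, ∃ v : ℕ, E (opair (nu n) (nu v)) g ∧
    ∀ v', E (opair (nu n) (nu v')) g → v' = v) → ∃ x, E x o ∧ ∀ n v u : ℕ,
      E (opair (nu n) (nu v)) g → E (opair x (opair (nu n) (nu u))) Z → v ≤ u
  sel : ∀ F : N, (∀ x, E x o → ∀ n : ℕ, ∃ m : ℕ, E (opair x (opair (nu n) (nu m))) F) →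
    ∃ H : N, (∀ x, E x o → ∀ n : ℕ, ∃ k : ℕ, ∀ v, k ≤ v →
      ¬ (E (opair (nu n) (nu v)) H ∧ E (opair x (nu v)) A)) ∧
      ∀ x, E x o → ∃ n m v : ℕ, m ≤ v ∧ E (opair x (opair (nu n) (nu m))) F ∧
        E (opair (nu n) (nu v)) H ∧ E (opair x (nu v)) A

/-- SMP: the simple properties of the interface hold in the generic quotient -/
def SMPStmt : Prop := ∀ (P : Type) [Preorder P] (Ω : Type) [LinearOrder Ω] [WellFoundedLT Ω]
  (D : SData P Ω) (ν : ℕ → HN P Tg) (c : ℕ → P), Gn ν c → Rich ν → ∀ [ZF (GQ ν c)] (o b z : ℕ),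
  ν o = oN P Ω → ν b = aN D → ν z = zN D →
  (∀ x, E x (qc ν c o) → ∀ m : ℕ, ∃ n, m ≤ n ∧ E (opair x (nu n)) (qc ν c b)) ∧
  (∀ x y, E x (qc ν c o) → E y (qc ν c o) → x ≠ y → ∃ m : ℕ, ∀ n, m ≤ n →
    ¬ (E (opair x (nu n)) (qc ν c b) ∧ E (opair y (nu n)) (qc ν c b))) ∧
  ∀ x, E x (qc ν c o) → ∀ n : ℕ, ∃ v : ℕ, E (opair x (opair (nu n) (nu v))) (qc ν c z) ∧
    ∀ v', E (opair x (opair (nu n) (nu v'))) (qc ν c z) → v' = v

/-- DMF: domination in the generic quotient -/
def DMFStmt : Prop := ∀ (P : Type) [Preorder P] (Ω : Type) [LinearOrder Ω] [WellFoundedLT Ω]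
  (D : SData P Ω) (ν : ℕ → HN P Tg) (c : ℕ → P), Gn ν c → Rich ν → ∀ [ZF (GQ ν c)] (o z : ℕ),
  ν o = oN P Ω → ν z = zN D → ∀ g : GQ ν c, (∀ n : ℕ, ∃ v : ℕ, E (opair (nu n) (nu v)) g ∧
    ∀ v', E (opair (nu n) (nu v')) g → v' = v) → ∃ x, E x (qc ν c o) ∧ ∀ n v u : ℕ,
      E (opair (nu n) (nu v)) g → E (opair x (opair (nu n) (nu u))) (qc ν c z) → v ≤ u

/-- SLF: selectivity in the generic quotient -/
def SLFStmt : Prop := ∀ (P : Type) [Preorder P] (Ω : Type) [LinearOrder Ω] [WellFoundedLT Ω]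
  (D : SData P Ω) (ν : ℕ → HN P Tg) (c : ℕ → P), Gn ν c → Rich ν → ∀ [ZF (GQ ν c)] (o b : ℕ),
  ν o = oN P Ω → ν b = aN D →
  ∀ F : GQ ν c, (∀ x, E x (qc ν c o) → ∀ n : ℕ, ∃ m : ℕ,
    E (opair x (opair (nu n) (nu m))) F) →
    ∃ H : GQ ν c, (∀ x, E x (qc ν c o) → ∀ n : ℕ, ∃ k : ℕ, ∀ v, k ≤ v →
      ¬ (E (opair (nu n) (nu v)) H ∧ E (opair x (nu v)) (qc ν c b))) ∧
      ∀ x, E x (qc ν c o) → ∃ n m v : ℕ, m ≤ v ∧ E (opair x (opair (nu n) (nu m))) F ∧
        E (opair (nu n) (nu v)) H ∧ E (opair x (nu v)) (qc ν c b)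

/-- MDL: the model -/
def MDLStmt : Prop := ∀ (P : Type) [Preorder P] (Ω : Type) [LinearOrder Ω] [WellFoundedLT Ω]
  (D : SData P Ω) (p : P), ∃ (N : Type) (_ : SetStr N) (_ : ZFC N), Countable N ∧
    WellFounded (fun x y : N => E x y) ∧ ∃ o A Z : N, Ifc N o A Z

/-! ### statements about the theory inside the quotient -/

section
variable {N : Type} [SetStr N] [ZF N]

/-- the set number `x` of the almost disjoint family -/
noncomputable def aset (A x : N) : N := sep om (fun v => E (opair x v) A)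

/-- the function number `x` -/
noncomputable def zset (Z x : N) : N := sep (prod om om) (fun u => E (opair x u) Z)

theorem aset_df : Fn2 (fun A x : N => aset A x) := by unfold aset; infer_instance

instance {n : ℕ} {t s : (Fin n → N) → N} [ht : DfT t] [hs : DfT s] :
    DfT (fun v => aset (t v) (s v)) := aset_df.comp2 ht hs

theorem zset_df : Fn2 (fun Z x : N => zset Z x) := by unfold zset; infer_instance

instance {n : ℕ} {t s : (Fin n → N) → N} [ht : DfT t] [hs : DfT s] :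
    DfT (fun v => zset (t v) (s v)) := zset_df.comp2 ht hs

/-- the sets with numbers in `J` -/
noncomputable def afam (A J : N) : N := img J (fun x => aset A x)

end

/-- LEX: a definable nonempty class of sets has a member of least size -/
def LEXStmt : Prop := ∀ (N : Type) [SetStr N] [ZFC N] (C : N → Prop), SW.Cl C → (∃ D, C D) →
  ∃ D, C D ∧ ∀ D', C D' → SizeLe D D'

/-- SIZ: simple facts about sizes -/
def SIZStmt : Prop := ∀ (N : Type) [SetStr N] [ZF N],
  (∀ a b c : N, SizeLe a b → SizeLe b c → SizeLe a c) ∧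
  (∀ a b c : N, SizeEq a b → SizeEq b c → SizeEq a c) ∧
  ∀ a b : N, SizeLe a b → ∃ c, Incl c b ∧ SizeEq a c

/-- ZDM: the functions `z` form a dominating family of size at most the size of the index set -/
def ZDMStmt : Prop := ∀ (N : Type) [SetStr N] [ZFC N] (o A Z : N), Ifc N o A Z →
  IsDominating om (img o (fun x => zset Z x)) ∧ SizeLe (img o (fun x => zset Z x)) o

/-- ADF: the sets with numbers in `J` form an almost disjoint family of the size of `J` -/
def ADFStmt : Prop := ∀ (N : Type) [SetStr N] [ZF N] (o A Z J : N), Ifc N o A Z → Incl J o →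
  IsADFamily om (afam A J) ∧ SizeEq J (afam A J)

/-- SAD: its space is selectively (a), first part: for a sequence `s` of open covers, there is a
set `H` of pairs such that the `n`-th section of `H` is almost disjoint from all members of the
family, and for each number `x` in `J`, the set number `x` is contained in a member of the `n`-th
cover meeting the `n`-th section of `H`, for some `n` -/
def SADStmt : Prop := ∀ (N : Type) [SetStr N] [ZF N] (o A Z J X T s : N), Ifc N o A Z →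
  Incl J o → IsPsiSpace om (afam A J) X T → IsSeq om s →
  (∀ n c, E n om → PairIn n c s → IsOpenCover X T c) →
  ∃ H : N, (∀ x, E x o → ∀ n : ℕ, ∃ k : ℕ, ∀ v, k ≤ v →
      ¬ (E (opair (nu n) (nu v)) H ∧ E (opair x (nu v)) A)) ∧
    ∀ x, E x J → ∃ (n v : ℕ) (c U : N), PairIn (nu n) c s ∧ E U c ∧ E (aset A x) U ∧
      E (nu v) U ∧ E (opair (nu n) (nu v)) H

/-- PSI: the space exists and is selectively (a) -/
def PSIStmt : Prop := ∀ (N : Type) [SetStr N] [ZF N] (o A Z J : N), Ifc N o A Z → Incl J o →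
  ∃ X T, IsPsiSpace om (afam A J) X T ∧ IsSelectivelyA om X T

/-- FIN: the statement -/
def FINStmt : Prop := ∀ (N : Type) [SetStr N] [ZFC N] (o A Z : N), Ifc N o A Z →
  DominatingLtNeverSelectivelyA N

/-- the final theorem from the modules -/
theorem main (hM : MDLStmt) (hF : FINStmt) (h1 : ADStmt) (h2 : DOMStmt) (h3 : SELStmt) :
    ∃ (N : Type) (_ : SetStr N) (_ : ZFC N), Countable N ∧ WellFounded (fun x y : N => E x y) ∧
      DominatingLtNeverSelectivelyA N := by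
  obtain ⟨p, _⟩ := h1.1
  obtain ⟨N, iN, hZ, hc, hw, o, A, Z, hI⟩ := hM PP Om (sdata h1 h2 h3) p
  exact ⟨N, iN, hZ, hc, hw, hF N o A Z hI⟩

end SSA
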