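import Pool.Agent.H77.SSA.GDefs

/-!
The statement is expressed by a sentence of the language of set theory.
-/

set_option linter.unusedVariables false
set_option synthInstance.maxSize 100000

namespace SSA

open SW

theorem incl_u : UDf (fun M _ (w : Fin 2 → M) => Incl (w 0) (w 1)) := by
  unfold Incl; infer_instance

instance incl_i {n : ℕ} {t s : ∀ (M : Type) [SetStr M], (Fin n → M) → M} [UV t] [UV s] :
    UDf (fun M _ v => Incl (t M v) (s M v)) := incl_u.comp2 (R := fun _ _ a b => Incl a b) t s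

theorem isInductive_u : UDf (fun M _ (w : Fin 1 → M) => IsInductive (w 0)) := by
  unfold IsInductive; infer_instance

instance isInductive_i {n : ℕ} {t : ∀ (M : Type) [SetStr M], (Fin n → M) → M} [UV t] :
    UDf (fun M _ v => IsInductive (t M v)) :=
  isInductive_u.comp1 (R := fun _ _ a => IsInductive a) t

theorem isOmega_u : UDf (fun M _ (w : Fin 1 → M) => IsOmega (w 0)) := by
  unfold IsOmega; infer_instance

instance isOmega_i {n : ℕ} {t : ∀ (M : Type) [SetStr M], (Fin n → M) → M} [UV t] :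
    UDf (fun M _ v => IsOmega (t M v)) := isOmega_u.comp1 (R := fun _ _ a => IsOmega a) t

theorem isClosedSet_u : UDf (fun M _ (w : Fin 3 → M) => IsClosedSet (w 0) (w 1) (w 2)) := by
  unfold IsClosedSet; infer_instance

instance isClosedSet_i {n : ℕ} {t s u : ∀ (M : Type) [SetStr M], (Fin n → M) → M} [UV t] [UV s]
    [UV u] : UDf (fun M _ v => IsClosedSet (t M v) (s M v) (u M v)) :=
  isClosedSet_u.comp3 (R := fun _ _ a b c => IsClosedSet a b c) t s u

theorem isFn_u : UDf (fun M _ (w : Fin 3 → M) => IsFn (w 0) (w 1) (w 2)) := by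
  unfold IsFn; infer_instance

instance isFn_i {n : ℕ} {t s u : ∀ (M : Type) [SetStr M], (Fin n → M) → M} [UV t] [UV s] [UV u] :
    UDf (fun M _ v => IsFn (t M v) (s M v) (u M v)) :=
  isFn_u.comp3 (R := fun _ _ a b c => IsFn a b c) t s u

theorem isInjFn_u : UDf (fun M _ (w : Fin 3 → M) => IsInjFn (w 0) (w 1) (w 2)) := by
  unfold IsInjFn; infer_instance

instance isInjFn_i {n : ℕ} {t s u : ∀ (M : Type) [SetStr M], (Fin n → M) → M} [UV t] [UV s]
    [UV u] : UDf (fun M _ v => IsInjFn (t M v) (s M v) (u M v)) :=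
  isInjFn_u.comp3 (R := fun _ _ a b c => IsInjFn a b c) t s u

theorem sizeLe_u : UDf (fun M _ (w : Fin 2 → M) => SizeLe (w 0) (w 1)) := by
  unfold SizeLe; infer_instance

instance sizeLe_i {n : ℕ} {t s : ∀ (M : Type) [SetStr M], (Fin n → M) → M} [UV t] [UV s] :
    UDf (fun M _ v => SizeLe (t M v) (s M v)) :=
  sizeLe_u.comp2 (R := fun _ _ a b => SizeLe a b) t s

theorem sizeEq_u : UDf (fun M _ (w : Fin 2 → M) => SizeEq (w 0) (w 1)) := by
  unfold SizeEq; infer_instance

instance sizeEq_i {n : ℕ} {t s : ∀ (M : Type) [SetStr M], (Fin n → M) → M} [UV t] [UV s] :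
    UDf (fun M _ v => SizeEq (t M v) (s M v)) :=
  sizeEq_u.comp2 (R := fun _ _ a b => SizeEq a b) t s

theorem domBy_u : UDf (fun M _ (w : Fin 3 → M) => DomBy (w 0) (w 1) (w 2)) := by
  unfold DomBy; infer_instance

instance domBy_i {n : ℕ} {t s u : ∀ (M : Type) [SetStr M], (Fin n → M) → M} [UV t] [UV s]
    [UV u] : UDf (fun M _ v => DomBy (t M v) (s M v) (u M v)) :=
  domBy_u.comp3 (R := fun _ _ a b c => DomBy a b c) t s u

theorem isDominating_u : UDf (fun M _ (w : Fin 2 → M) => IsDominating (w 0) (w 1)) := by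
  unfold IsDominating; infer_instance

instance isDominating_i {n : ℕ} {t s : ∀ (M : Type) [SetStr M], (Fin n → M) → M} [UV t] [UV s] :
    UDf (fun M _ v => IsDominating (t M v) (s M v)) :=
  isDominating_u.comp2 (R := fun _ _ a b => IsDominating a b) t s

theorem isInfSub_u : UDf (fun M _ (w : Fin 2 → M) => IsInfSub (w 0) (w 1)) := by
  unfold IsInfSub; infer_instance

instance isInfSub_i {n : ℕ} {t s : ∀ (M : Type) [SetStr M], (Fin n → M) → M} [UV t] [UV s] :
    UDf (fun M _ v => IsInfSub (t M v) (s M v)) :=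
  isInfSub_u.comp2 (R := fun _ _ a b => IsInfSub a b) t s

theorem isFinSub_u : UDf (fun M _ (w : Fin 2 → M) => IsFinSub (w 0) (w 1)) := by
  unfold IsFinSub; infer_instance

instance isFinSub_i {n : ℕ} {t s : ∀ (M : Type) [SetStr M], (Fin n → M) → M} [UV t] [UV s] :
    UDf (fun M _ v => IsFinSub (t M v) (s M v)) :=
  isFinSub_u.comp2 (R := fun _ _ a b => IsFinSub a b) t s

theorem isADFamily_u : UDf (fun M _ (w : Fin 2 → M) => IsADFamily (w 0) (w 1)) := by
  unfold IsADFamily
  simp only [ne_eq]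
  infer_instance

instance isADFamily_i {n : ℕ} {t s : ∀ (M : Type) [SetStr M], (Fin n → M) → M} [UV t] [UV s] :
    UDf (fun M _ v => IsADFamily (t M v) (s M v)) :=
  isADFamily_u.comp2 (R := fun _ _ a b => IsADFamily a b) t s

theorem isPsiSpace_u :
    UDf (fun M _ (w : Fin 4 → M) => IsPsiSpace (w 0) (w 1) (w 2) (w 3)) := by
  unfold IsPsiSpace; infer_instance

instance isPsiSpace_i {n : ℕ} {t s u x : ∀ (M : Type) [SetStr M], (Fin n → M) → M} [UV t] [UV s]
    [UV u] [UV x] : UDf (fun M _ v => IsPsiSpace (t M v) (s M v) (u M v) (x M v)) :=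
  isPsiSpace_u.comp4 (R := fun _ _ a b c d => IsPsiSpace a b c d) t s u x

theorem isOpenCover_u : UDf (fun M _ (w : Fin 3 → M) => IsOpenCover (w 0) (w 1) (w 2)) := by
  unfold IsOpenCover; infer_instance

instance isOpenCover_i {n : ℕ} {t s u : ∀ (M : Type) [SetStr M], (Fin n → M) → M} [UV t] [UV s]
    [UV u] : UDf (fun M _ v => IsOpenCover (t M v) (s M v) (u M v)) :=
  isOpenCover_u.comp3 (R := fun _ _ a b c => IsOpenCover a b c) t s u

theorem isDenseSet_u : UDf (fun M _ (w : Fin 3 → M) => IsDenseSet (w 0) (w 1) (w 2)) := by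
  unfold IsDenseSet; infer_instance

instance isDenseSet_i {n : ℕ} {t s u : ∀ (M : Type) [SetStr M], (Fin n → M) → M} [UV t] [UV s]
    [UV u] : UDf (fun M _ v => IsDenseSet (t M v) (s M v) (u M v)) :=
  isDenseSet_u.comp3 (R := fun _ _ a b c => IsDenseSet a b c) t s u

theorem isDiscreteSet_u : UDf (fun M _ (w : Fin 2 → M) => IsDiscreteSet (w 0) (w 1)) := by
  unfold IsDiscreteSet; infer_instance

instance isDiscreteSet_i {n : ℕ} {t s : ∀ (M : Type) [SetStr M], (Fin n → M) → M} [UV t] [UV s] :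
    UDf (fun M _ v => IsDiscreteSet (t M v) (s M v)) :=
  isDiscreteSet_u.comp2 (R := fun _ _ a b => IsDiscreteSet a b) t s

theorem isSeq_u : UDf (fun M _ (w : Fin 2 → M) => IsSeq (w 0) (w 1)) := by
  unfold IsSeq; infer_instance

instance isSeq_i {n : ℕ} {t s : ∀ (M : Type) [SetStr M], (Fin n → M) → M} [UV t] [UV s] :
    UDf (fun M _ v => IsSeq (t M v) (s M v)) :=
  isSeq_u.comp2 (R := fun _ _ a b => IsSeq a b) t s

theorem isSelectivelyA_u :
    UDf (fun M _ (w : Fin 3 → M) => IsSelectivelyA (w 0) (w 1) (w 2)) := by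
  unfold IsSelectivelyA; infer_instance

instance isSelectivelyA_i {n : ℕ} {t s u : ∀ (M : Type) [SetStr M], (Fin n → M) → M} [UV t]
    [UV s] [UV u] : UDf (fun M _ v => IsSelectivelyA (t M v) (s M v) (u M v)) :=
  isSelectivelyA_u.comp3 (R := fun _ _ a b c => IsSelectivelyA a b c) t s u

theorem statement_u :
    UDf (fun M _ (w : Fin 0 → M) => DominatingLtNeverSelectivelyA M) := by
  unfold DominatingLtNeverSelectivelyA; infer_instance

/-- the sentence -/
theorem exists_sentence : ∃ φ : Fml 0, ∀ (N : Type) [SetStr N],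
    Sat (M := N) φ Fin.elim0 ↔ DominatingLtNeverSelectivelyA N := by
  obtain ⟨f, hf⟩ := statement_u.out
  exact ⟨f, fun N _ => (hf N Fin.elim0).symm⟩

end SSA
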