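import Pool.Agent.H77.SSA.Defs

/-!
Basic facts about statuses, the order, restriction, finite changes.
-/

set_option linter.unusedVariables false

namespace SSA

open Filter

/-! ### statuses -/

theorem St.le_refl (s : St) : s.le s := by
  cases s with
  | hit i => exact rfl
  | opn B => exact Finset.Subset.refl B

theorem St.le_trans {s t u : St} (h : s.le t) (h' : t.le u) : s.le u := by
  cases s <;> cases t <;> cases u <;> simp only [St.le] at h h' ⊢
  · exact h.trans h'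
  · rw [h]; exact h'
  · exact h' h
  · exact h.trans h'

theorem St.le_antisymm {s t : St} (h : s.le t) (h' : t.le s) : s = t := by
  cases s <;> cases t <;> simp only [St.le] at h h'
  · rw [h]
  · rw [Finset.Subset.antisymm h h']

theorem St.excl_mono {s t : St} {a : ℕ} (h : s.le t) (h' : t.excl a) : s.excl a := by
  cases s <;> cases t <;> simp only [St.le, St.excl] at h h' ⊢
  · rw [h]; exact h'
  · intro e
    rw [e] at h
    exact h' h
  · exact fun e => h' (h e)

theorem St.of_le_hit {s : St} {i : ℕ} (h : s.le (.hit i)) : s = .hit i := by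
  cases s <;> simp only [St.le] at h
  rw [h]

theorem St.of_le_dec {s t : St} (h : s.le t) (h' : t.dec) (hl : ∀ i, t = .opn ∅ → s ≠ .hit i) :
    s = t := by
  cases s <;> cases t <;> simp only [St.le, St.dec] at h h' ⊢
  · rw [h]
  · subst h'
    exact absurd rfl (hl _ rfl)
  · subst h'
    rw [Finset.subset_empty.1 h]

/-- nothing is strictly below a decided status -/
theorem St.eq_of_le_dec {s t : St} (h : s.le t) (h' : t.dec) : s = t := by
  refine St.of_le_dec h h' fun i e hs => ?_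
  subst e
  subst hs
  simp [St.le] at h

theorem St.leg_mono {s t : St} {n : ℕ} (h : s.le t) (h' : t.leg n) : s.leg n := by
  cases s <;> cases t <;> simp only [St.le, St.leg] at h h' ⊢
  · rw [h]; exact h'
  · exact Finset.mem_range.1 (h' h)
  · exact h.trans h'

theorem St.exists_dec (s : St) : ∃ t : St, t.dec ∧ t.le s ∧ ∀ n, s.leg n → t.leg n := by
  cases s with
  | hit i => exact ⟨.hit i, trivial, rfl, fun n h => h⟩
  | opn B => exact ⟨.opn ∅, rfl, Finset.empty_subset B, fun n h => Finset.empty_subset _⟩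

/-- rank of a status -/
def St.rk : St → ℕ
  | .hit _ => 0
  | .opn B => B.card + 1

theorem St.rk_le {s t : St} (h : s.le t) : s.rk ≤ t.rk := by
  cases s <;> cases t <;> simp only [St.le, St.rk] at h ⊢
  · exact le_rfl
  · exact Nat.zero_le _
  · exact Nat.succ_le_succ (Finset.card_le_card h)

theorem St.eq_of_rk {s t : St} (h : s.le t) (h' : s.rk = t.rk) : s = t := by
  cases s <;> cases t <;> simp only [St.le, St.rk] at h h'
  · rw [h]
  · omega
  · rw [Finset.eq_of_subset_of_card_le h (by omega)]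

/-- decreasing sequences of statuses are eventually constant -/
theorem St.stab (f : ℕ → St) (h : ∀ i, (f (i + 1)).le (f i)) : ∃ i, ∀ j, i ≤ j → f j = f i := by
  have hle : ∀ i j, i ≤ j → (f j).le (f i) := by
    intro i j hij
    obtain ⟨d, rfl⟩ := Nat.exists_eq_add_of_le hij
    clear hij
    induction d with
    | zero => exact St.le_refl _
    | succ d ih => exact St.le_trans (h (i + d)) ih
  have hex : ∃ m, ∃ i, (f i).rk = m := ⟨_, 0, rfl⟩
  classical
  obtain ⟨i, hi⟩ := Nat.find_spec hex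
  refine ⟨i, fun j hij => ?_⟩
  refine St.eq_of_rk (hle i j hij) ?_
  refine _root_.le_antisymm (St.rk_le (hle i j hij)) ?_
  rw [hi]
  exact Nat.find_min' hex ⟨j, rfl⟩

/-! ### the order -/

theorem RC.Le.refl (p : RC) : p.Le p where
  ht := le_rfl
  x _ _ := rfl
  z _ _ := rfl
  Pi := subset_rfl
  av ξ h1 h2 := absurd h2 (not_lt.2 h1)
  Z := subset_rfl
  dl _ _ := le_rfl
  st _ _ _ _ := St.le_refl _

theorem RC.Le.trans {r q p : RC} (h : r.Le q) (h' : q.Le p) : r.Le p where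
  ht := h'.ht.trans h.ht
  x ξ hξ := (h.x ξ (hξ.trans_le h'.ht)).trans (h'.x ξ hξ)
  z ξ hξ := (h.z ξ (hξ.trans_le h'.ht)).trans (h'.z ξ hξ)
  Pi := h'.Pi.trans h.Pi
  av ξ h1 h2 S hS := by
    rcases lt_or_ge ξ q.ht with h3 | h3
    · rw [h.x ξ h3]
      exact h'.av ξ h1 h3 S hS
    · exact h.av ξ h3 h2 S (h'.Pi hS)
  Z := h'.Z.trans h.Z
  dl g hg := (h'.dl g hg).trans (h.dl g (h'.Z hg))
  st g hg n k := St.le_trans (h.st g (h'.Z hg) n k) (h'.st g hg n k)

theorem RC.le_res (p : RC) (A : Set Crd) : p.Le (p.res A) where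
  ht := le_rfl
  x _ _ := rfl
  z _ _ := rfl
  Pi := subset_rfl
  av ξ h1 h2 := absurd h2 (not_lt.2 h1)
  Z := Set.inter_subset_left
  dl _ _ := le_rfl
  st _ _ _ _ := St.le_refl _

theorem RC.Le.res {q p : RC} (h : q.Le p) (A : Set Crd) : (q.res A).Le (p.res A) where
  ht := h.ht
  x := h.x
  z := h.z
  Pi := h.Pi
  av := h.av
  Z := Set.inter_subset_inter_left _ h.Z
  dl g hg := h.dl g hg.1
  st g hg := h.st g hg.1

theorem RC.res_res (p : RC) {A B : Set Crd} (h : B ⊆ A) : (p.res A).res B = p.res B := by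
  unfold RC.res
  simp only [Set.inter_assoc, Set.inter_eq_self_of_subset_right h]

theorem RC.Le.lg {q p : RC} (h : q.Le p) (hp : p.Lg) : ∀ g ∈ p.Z, ∀ n k, (q.st g n k).leg (nb k) :=
  fun g hg n k => St.leg_mono (h.st g hg n k) (hp g hg n k)

/-! ### finite changes -/

theorem RC.Sim.refl {p : RC} (h : p.Lg) : p.Sim p where
  ht := rfl
  x _ _ := rfl
  z _ _ := rfl
  Pi := rfl
  Z := rfl
  dl _ _ := rfl
  leg := h
  fin := by simp

theorem RC.Sim.trans {r q p : RC} (h : r.Sim q) (h' : q.Sim p) : r.Sim p where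
  ht := h.ht.trans h'.ht
  x ξ hξ := (h.x ξ (by rw [h'.ht]; exact hξ)).trans (h'.x ξ hξ)
  z ξ hξ := (h.z ξ (by rw [h'.ht]; exact hξ)).trans (h'.z ξ hξ)
  Pi := h.Pi.trans h'.Pi
  Z := h.Z.trans h'.Z
  dl g hg := (h.dl g (by rw [h'.Z]; exact hg)).trans (h'.dl g hg)
  leg g hg n k := h.leg g (by rw [h'.Z]; exact hg) n k
  fin := by
    refine (h.fin.union h'.fin).subset ?_
    rintro ⟨g, n, k⟩ ⟨hg, hne⟩
    by_cases h1 : q.st g n k = p.st g n k
    · left
      refine ⟨by rw [h'.Z]; exact hg, fun h2 => hne ?_⟩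
      exact h2.trans h1
    · exact Or.inr ⟨hg, h1⟩

theorem RC.Sim.symm {q p : RC} (h : q.Sim p) (hp : p.Lg) : p.Sim q where
  ht := h.ht.symm
  x ξ hξ := (h.x ξ (by rw [← h.ht]; exact hξ)).symm
  z ξ hξ := (h.z ξ (by rw [← h.ht]; exact hξ)).symm
  Pi := h.Pi.symm
  Z := h.Z.symm
  dl g hg := (h.dl g (by rw [← h.Z]; exact hg)).symm
  leg g hg n k := hp g (by rw [← h.Z]; exact hg) n k
  fin := by
    refine h.fin.subset ?_
    rintro ⟨g, n, k⟩ ⟨hg, hne⟩
    exact ⟨by rw [← h.Z]; exact hg, fun e => hne e.symm⟩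

theorem RC.Sim.lg {q p : RC} (h : q.Sim p) : q.Lg := fun g hg n k =>
  h.leg g (by rw [← h.Z]; exact hg) n k

theorem RC.Sim.res {q p : RC} (h : q.Sim p) (A : Set Crd) : (q.res A).Sim (p.res A) where
  ht := h.ht
  x := h.x
  z := h.z
  Pi := h.Pi
  Z := by
    show q.Z ∩ A = p.Z ∩ A
    rw [h.Z]
  dl g hg := h.dl g hg.1
  leg g hg := h.leg g hg.1
  fin := h.fin.subset fun t ht => ⟨ht.1.1, ht.2⟩

theorem VA.lg {A : Set Crd} {p : RC} (h : VA A p) : p.Lg := fun g hg => (h.2.2 g hg).1.leg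

theorem RC.Lg.res {p : RC} (h : p.Lg) (A : Set Crd) : (p.res A).Lg := fun g hg => h g hg.1

theorem VA.mono {A B : Set Crd} {p : RC} (h : VA A p) (hAB : A ⊆ B) : VA B p :=
  ⟨h.1, h.2.1.trans hAB, h.2.2⟩

/-! ### keeping finitely many statuses -/

theorem LeF.refl (Ψ : Finset Pos) (p : RC) : LeF Ψ p p := ⟨RC.Le.refl p, fun _ _ => rfl⟩

theorem LeF.trans {Ψ : Finset Pos} {r q p : RC} (h : LeF Ψ r q) (h' : LeF Ψ q p) : LeF Ψ r p :=
  ⟨h.1.trans h'.1, fun t ht => (h.2 t ht).trans (h'.2 t ht)⟩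

theorem LeF.mono {Ψ Φ : Finset Pos} {q p : RC} (h : LeF Ψ q p) (hs : Φ ⊆ Ψ) : LeF Φ q p :=
  ⟨h.1, fun t ht => h.2 t (hs ht)⟩

theorem PosIn.of_le {Ψ : Finset Pos} {q p : RC} (h : PosIn Ψ p) (h' : q.Le p) : PosIn Ψ q :=
  fun t ht => h'.Z (h t ht)

end SSA
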