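import Pool.Agent.H13.MA.Core

/-!
The notions of the final statement, for an arbitrary structure for the membership relation:
functions and sizes, dominating families, almost disjoint families, their spaces, the property
of being selectively (a).
-/

namespace SSA

open SW

section
variable {N : Type} [SetStr N]

/-- `f` is (the graph of) a function from `a` to `b` -/
def IsFn (f a b : N) : Prop :=
  (∀ z, E z f → ∃ x y, E x a ∧ E y b ∧ IsOP z x y) ∧ (∀ x, E x a → ∃ y, PairIn x y f) ∧
  ∀ x y y', PairIn x y f → PairIn x y' f → y = y'

/-- `f` is an injective function from `a` to `b` -/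
def IsInjFn (f a b : N) : Prop := IsFn f a b ∧ ∀ x x' y, PairIn x y f → PairIn x' y f → x = x'

/-- the size of `a` is at most the size of `b` -/
def SizeLe (a b : N) : Prop := ∃ f, IsInjFn f a b

/-- `a` and `b` have the same size: there is a bijection -/
def SizeEq (a b : N) : Prop := ∃ f, IsInjFn f a b ∧ ∀ y, E y b → ∃ x, PairIn x y f

/-- `f n ≤ g n` for all but finitely many natural numbers `n` (`w` is the set of natural
numbers) -/
def DomBy (w f g : N) : Prop := ∃ m, E m w ∧ ∀ n a b, E n w → E m n → PairIn n a f →
  PairIn n b g → E a b ∨ a = b

/-- `D` is a dominating family of functions from the natural numbers to the natural numbers -/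
def IsDominating (w D : N) : Prop := (∀ f, E f D → IsFn f w w) ∧
  ∀ g, IsFn g w w → ∃ f, E f D ∧ DomBy w g f

/-- `a` is an infinite set of natural numbers -/
def IsInfSub (w a : N) : Prop := Incl a w ∧ ∀ m, E m w → ∃ n, E n a ∧ E m n

/-- `a` is a finite (bounded) set of natural numbers -/
def IsFinSub (w a : N) : Prop := Incl a w ∧ ∃ m, E m w ∧ ∀ n, E n a → E n m

/-- `A` is an almost disjoint family: a set of infinite sets of natural numbers, and the
intersection of any two of them is finite -/
def IsADFamily (w A : N) : Prop := (∀ a, E a A → IsInfSub w a) ∧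
  ∀ a b c, E a A → E b A → a ≠ b → (∀ n, E n c ↔ E n a ∧ E n b) → IsFinSub w c

/-- `X` is the set of points and `T` the set of open sets of the space of the almost disjoint
family `A`: the points are the natural numbers and the members of `A`; a set `U` of points is
open if for each member `a` of `A` in `U` there is a finite `F` with `a ∖ F ⊆ U` -/
def IsPsiSpace (w A X T : N) : Prop := (∀ z, E z X ↔ E z w ∨ E z A) ∧
  ∀ U, E U T ↔ Incl U X ∧ ∀ a, E a A → E a U → ∃ F, IsFinSub w F ∧
    ∀ n, E n a → ¬ E n F → E n U

/-- `c` is an open cover of the space `X` with topology `T` -/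
def IsOpenCover (X T c : N) : Prop := Incl c T ∧ ∀ x, E x X → ∃ U, E U c ∧ E x U

/-- `D` is dense -/
def IsDenseSet (X T D : N) : Prop := Incl D X ∧ ∀ U, E U T → (∃ x, E x U) → ∃ x, E x U ∧ E x D

/-- `A` is discrete (in the subspace topology) -/
def IsDiscreteSet (T A : N) : Prop := ∀ x, E x A → ∃ U, E U T ∧ ∀ y, E y U ∧ E y A ↔ y = x

/-- `s` is a sequence, that is, a function defined on the set `w` of natural numbers -/
def IsSeq (w s : N) : Prop := ∃ b, IsFn s w b

/-- The space `X` with topology `T` is selectively (a): for every sequence `s` of open covers and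
every dense set `D` there is a sequence `t` of closed discrete subsets of `D` such that every
point `x` is in the star of the `n`-th set of `t` with respect to the `n`-th cover, for some
`n`. -/
def IsSelectivelyA (w X T : N) : Prop := ∀ s D, IsSeq w s →
  (∀ n c, E n w → PairIn n c s → IsOpenCover X T c) → IsDenseSet X T D →
  ∃ t, IsSeq w t ∧
    (∀ n A, E n w → PairIn n A t → Incl A D ∧ IsClosedSet X T A ∧ IsDiscreteSet T A) ∧
    ∀ x, E x X → ∃ n c A U y, E n w ∧ PairIn n c s ∧ PairIn n A t ∧ E U c ∧ E x U ∧ E y U ∧ E y A

/-- The dominating number is smaller than the never selectively (a) cardinal: there is a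
dominating family `D` of least size (its size is the dominating number), and for every set `S`
of size at most the size of `D` there is an almost disjoint family of the same size as `S`
whose space is selectively (a). -/
def DominatingLtNeverSelectivelyA (N : Type) [SetStr N] : Prop := ∃ w D : N, IsOmega w ∧
  IsDominating w D ∧ (∀ D', IsDominating w D' → SizeLe D D') ∧
  ∀ S, SizeLe S D → ∃ A X T, IsADFamily w A ∧ SizeEq S A ∧ IsPsiSpace w A X T ∧
    IsSelectivelyA w X T

end

end SSA
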