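import Mathlib

/-!
A countable support forcing, defined natively in the universe of Lean: types, conditions, the
order, validity of conditions (by recursion on the coordinates).
-/

set_option linter.unusedVariables false

namespace SSA

open Filter Ordinal Cardinal

/-! ### the index set -/

/-- the first uncountable ordinal, as a type -/
def Om : Type := ((ℵ_ 1 : Cardinal.{0}).ord).ToType

noncomputable instance : LinearOrder Om := linearOrder_toType _

instance : WellFoundedLT Om := wellFoundedLT_toType _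

theorem Om.mk : #Om = ℵ_ 1 := by
  have : #((ℵ_ 1 : Cardinal.{0}).ord.ToType) = ((ℵ_ 1 : Cardinal.{0}).ord).card :=
    Cardinal.mk_toType _
  rw [Cardinal.card_ord] at this
  exact this

instance : Nonempty Om := by
  rw [← Cardinal.mk_ne_zero_iff, Om.mk]
  exact (Cardinal.aleph_pos _).ne'

/-- the least element of the index set -/
noncomputable def bt : Om := WellFounded.min (wellFounded_lt (α := Om)) Set.univ
  ⟨Classical.arbitrary _, trivial⟩

theorem bt_le (a : Om) : bt ≤ a :=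
  not_lt.1 (WellFounded.not_lt_min (wellFounded_lt (α := Om)) Set.univ trivial)

/-- initial segments are countable -/
theorem Om.countable_Iio (a : Om) : (Set.Iio a).Countable := by
  rw [Cardinal.countable_iff_lt_aleph_one]
  exact Cardinal.mk_Iio_toType_ord_lt (c := ℵ_ 1) a

/-- countable sets are bounded -/
theorem Om.bdd {s : Set Om} (hs : s.Countable) : ∃ b, ∀ a ∈ s, a < b := by
  by_contra hcon
  push Not at hcon
  have h1 : (Set.univ : Set Om) ⊆ ⋃ a ∈ s, Set.Iic a := fun b _ => by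
    obtain ⟨a, ha, hab⟩ := hcon b
    exact Set.mem_biUnion ha hab
  have h2 : (⋃ a ∈ s, Set.Iic a).Countable := hs.biUnion fun a _ => by
    rw [← Set.Iio_insert]
    exact (Om.countable_Iio a).insert a
  have h3 : (Set.univ : Set Om).Countable := h2.mono h1
  rw [Cardinal.countable_iff_lt_aleph_one, Cardinal.mk_univ, Om.mk] at h3
  exact lt_irrefl _ h3

/-! ### slaloms and statuses -/

/-- slaloms -/
abbrev Sl : Type := ℕ → Finset ℕ

/-- a status: the value `i` has been chosen, or the values in `B` are still allowed -/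
inductive St : Type
  | hit (i : ℕ) : St
  | opn (B : Finset ℕ) : St

/-- `s` is stronger than `t` -/
def St.le : St → St → Prop
  | .hit i, .hit j => i = j
  | .hit i, .opn B => i ∈ B
  | .opn B, .opn B' => B ⊆ B'
  | .opn _, .hit _ => False

/-- the status excludes the value `a` -/
def St.excl : St → ℕ → Prop
  | .hit i, a => i ≠ a
  | .opn B, a => a ∉ B

/-- the status is legal: all values are smaller than `n` -/
def St.leg : St → ℕ → Prop
  | .hit i, n => i < n
  | .opn B, n => B ⊆ Finset.range n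

/-- the status is decided -/
def St.dec : St → Prop
  | .hit _ => True
  | .opn B => B = ∅

/-- the bound for the values at level `k` -/
def nb (k : ℕ) : ℕ := (k + 1) ^ 2

/-! ### coordinates -/

/-- Data of a raw condition, the coordinates being enumerated by natural numbers. -/
structure Dat : Type where
  ht : Om
  x : Om → ℕ → ℕ
  z : Om → ℕ → ℕ
  Pi : Set Sl
  act : Set ℕ
  dl : ℕ → Om
  st : ℕ → ℕ → ℕ → St

/-- the index set of the antichains -/
inductive K : Type
  | leaf : K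
  | chd (t : K) (ξ : Om) (n : ℕ) (κ : K) (i : ℕ) : K
  | wit (d : Dat) (ts : ℕ → K) (ξ : Om) (n : ℕ) (i : ℕ) : K

/-- Coordinates: names of functions from `Om` to functions from `ℕ` to `ℕ`; for each `ξ` and `n` a
family of raw conditions (data and an enumeration of smaller coordinates) with values. -/
inductive Crd : Type
  | base : Crd
  | mk (d : Om → ℕ → K → Dat) (m : Om → ℕ → K → ℕ) (ch : Om → ℕ → K → ℕ → Crd) : Crd

/-- trivial data -/
noncomputable def dat0 : Dat where
  ht := bt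
  x _ _ := 0
  z _ _ := 0
  Pi := ∅
  act := ∅
  dl _ := bt
  st _ _ _ := .opn ∅

/-- the data -/
noncomputable def Crd.d : Crd → Om → ℕ → K → Dat
  | .base => fun _ _ _ => dat0
  | .mk d _ _ => d

/-- the values -/
def Crd.val : Crd → Om → ℕ → K → ℕ
  | .base => fun _ _ _ => 0
  | .mk _ m _ => m

/-- the children -/
def Crd.ch : Crd → Om → ℕ → K → ℕ → Crd
  | .base => fun _ _ _ _ => .base
  | .mk _ _ ch => ch

/-- `a` is a child of the second coordinate -/
def Chd (a : Crd) : Crd → Prop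
  | .base => False
  | .mk _ _ ch => ∃ ξ n κ i, ch ξ n κ i = a

/-- the coordinates on which `g` depends -/
def Dep (g : Crd) : Set Crd := {a | Relation.TransGen Chd a g}

theorem chd_wf : WellFounded Chd := ⟨fun a => by
  induction a with
  | base => exact Acc.intro _ fun b hb => hb.elim
  | mk d m ch ih =>
    refine Acc.intro _ fun b hb => ?_
    obtain ⟨ξ, n, κ, i, rfl⟩ := hb
    exact ih ξ n κ i⟩

theorem dep_wf : WellFounded (fun a b : Crd => a ∈ Dep b) := chd_wf.transGen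

theorem not_mem_dep (g : Crd) : g ∉ Dep g := fun h => dep_wf.irrefl.irrefl g h

theorem dep_trans {a b c : Crd} (h : a ∈ Dep b) (h' : b ∈ Dep c) : a ∈ Dep c :=
  Relation.TransGen.trans h h'

/-- closed sets of coordinates -/
def Clo (A : Set Crd) : Prop := ∀ g ∈ A, Dep g ⊆ A

theorem clo_dep (g : Crd) : Clo (Dep g) := fun _ hb _ ha => dep_trans ha hb

theorem clo_univ : Clo Set.univ := fun _ _ _ _ => trivial

/-! ### conditions -/

/-- Raw conditions: height, the functions `x ξ` and `z ξ` for `ξ` below the height, the promises,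
the active coordinates, the bounds and the statuses of the active coordinates. -/
structure RC : Type where
  ht : Om
  x : Om → ℕ → ℕ
  z : Om → ℕ → ℕ
  Pi : Set Sl
  Z : Set Crd
  dl : Crd → Om
  st : Crd → ℕ → ℕ → St

/-- the raw condition given by data and an enumeration of coordinates -/
noncomputable def deco (d : Dat) (ch : ℕ → Crd) : RC where
  ht := d.ht
  x := d.x
  z := d.z
  Pi := d.Pi
  Z := {g | ∃ i ∈ d.act, ch i = g}
  dl g := by
    classical
    exact if h : ∃ i, i ∈ d.act ∧ ch i = g then d.dl h.choose else bt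
  st g := by
    classical
    exact if h : ∃ i, i ∈ d.act ∧ ch i = g then d.st h.choose else fun _ _ => .opn ∅

/-- the raw condition number `κ` for `ξ`, `n` -/
noncomputable def pre (g : Crd) (ξ : Om) (n : ℕ) (κ : K) : RC := deco (g.d ξ n κ) (g.ch ξ n κ)

/-- `q` is stronger than `p` -/
structure RC.Le (q p : RC) : Prop where
  ht : p.ht ≤ q.ht
  x : ∀ ξ < p.ht, q.x ξ = p.x ξ
  z : ∀ ξ < p.ht, q.z ξ = p.z ξ
  Pi : p.Pi ⊆ q.Pi
  av : ∀ ξ, p.ht ≤ ξ → ξ < q.ht → ∀ S ∈ p.Pi, ∀ᶠ k in atTop, q.x ξ k ∉ S k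
  Z : p.Z ⊆ q.Z
  dl : ∀ g ∈ p.Z, p.dl g ≤ q.dl g
  st : ∀ g ∈ p.Z, ∀ n k, (q.st g n k).le (p.st g n k)

/-- the restriction to a set of coordinates -/
def RC.res (p : RC) (A : Set Crd) : RC := { p with Z := p.Z ∩ A }

/-- legality of the statuses -/
def RC.Lg (p : RC) : Prop := ∀ g ∈ p.Z, ∀ n k, (p.st g n k).leg (nb k)

/-- `q` differs from `p` only in finitely many statuses of active coordinates, which are legal -/
structure RC.Sim (q p : RC) : Prop where
  ht : q.ht = p.ht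
  x : ∀ ξ < p.ht, q.x ξ = p.x ξ
  z : ∀ ξ < p.ht, q.z ξ = p.z ξ
  Pi : q.Pi = p.Pi
  Z : q.Z = p.Z
  dl : ∀ g ∈ p.Z, q.dl g = p.dl g
  leg : ∀ g ∈ p.Z, ∀ n k, (q.st g n k).leg (nb k)
  fin : {t : Crd × ℕ × ℕ | t.1 ∈ p.Z ∧ q.st t.1 t.2.1 t.2.2 ≠ p.st t.1 t.2.1 t.2.2}.Finite

/-- the global part of validity -/
structure RC.VG (p : RC) : Prop where
  cPi : p.Pi.Countable
  sl : ∀ S ∈ p.Pi, ∀ k, (S k).card ≤ k
  cZ : p.Z.Countable
  xb : ∀ ξ < p.ht, ∀ k, p.x ξ k < nb k
  ed : ∀ ξ < p.ht, ∀ η < p.ht, ξ ≠ η → ∀ᶠ k in atTop, p.x ξ k ≠ p.x η k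

/-- the combinatorial part of validity at the coordinate `g` -/
structure RC.VC (p : RC) (g : Crd) : Prop where
  dht : p.dl g ≤ p.ht
  leg : ∀ n k, (p.st g n k).leg (nb k)
  c1 : ∀ ξ < p.dl g, ∀ n, ∀ᶠ k in atTop, (p.st g n k).excl (p.x ξ k)
  c3 : ∀ ξ, p.dl g ≤ ξ → ξ < p.ht → ∀ n, ∃ᶠ k in atTop, ∃ B, p.st g n k = .opn B ∧ p.x ξ k ∈ B
  c4 : ∀ ξ, p.dl g ≤ ξ → ξ < p.ht → ∀ n, ∀ᶠ k in atTop, p.st g n k ≠ .hit (p.x ξ k)
  r3 : ∀ n, ∃ S ∈ p.Pi, ∀ N, ∃ k ≥ N, ∃ B, p.st g n k = .opn B ∧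
    Finset.range (nb k) \ B ⊆ S k ∧ (S k).card + N ≤ k
  r4 : ∀ n, ∃ S ∈ p.Pi, ∀ᶠ k in atTop, ∀ i, p.st g n k = .hit i → i ∈ S k

/-- the coordinate `g` is good for the conditions in `V`: its families are predense -/
def Good (V : RC → Prop) (g : Crd) : Prop :=
  ∀ ξ n r, V r → ∃ r', V r' ∧ r'.Le r ∧ ∃ κ, r'.Le (pre g ξ n κ)

/-- the requirement for `g` and `ξ`, with respect to the conditions in `V` -/
def Cl (V : RC → Prop) (g : Crd) (p : RC) (ξ : Om) : Prop :=
  ∀ p' : RC, p'.Sim (p.res (Dep g)) → ∀ (N : ℕ) (r : RC), V r → r.Le p' →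
    ∃ r', V r' ∧ r'.Le r ∧ ∃ n ≥ N, ∃ k κ, p.st g n k = .hit (p.x ξ k) ∧
      r'.Le (pre g ξ n κ) ∧ g.val ξ n κ ≤ k

/-- the forcing part of validity at the coordinate `g` -/
def Ok : Crd → RC → Prop :=
  dep_wf.fix fun g ok p =>
    Good (fun r => r.VG ∧ r.Z ⊆ Dep g ∧ ∀ a (h : a ∈ Dep g), a ∈ r.Z → r.VC a ∧ ok a h r) g ∧
    ∀ ξ < p.dl g,
      Cl (fun r => r.VG ∧ r.Z ⊆ Dep g ∧ ∀ a (h : a ∈ Dep g), a ∈ r.Z → r.VC a ∧ ok a h r) g p ξ

/-- `p` is a valid condition with coordinates in `A` -/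
def VA (A : Set Crd) (p : RC) : Prop := p.VG ∧ p.Z ⊆ A ∧ ∀ g ∈ p.Z, p.VC g ∧ Ok g p

theorem Ok_iff (g : Crd) (p : RC) :
    Ok g p ↔ Good (VA (Dep g)) g ∧ ∀ ξ < p.dl g, Cl (VA (Dep g)) g p ξ := by
  have e : (fun r : RC => r.VG ∧ r.Z ⊆ Dep g ∧ ∀ a (h : a ∈ Dep g), a ∈ r.Z →
      r.VC a ∧ Ok a r) = VA (Dep g) := by
    funext r
    refine propext ⟨fun ⟨h1, h2, h3⟩ => ⟨h1, h2, fun a ha => h3 a (h2 ha) ha⟩,
      fun ⟨h1, h2, h3⟩ => ⟨h1, h2, fun a _ ha => h3 a ha⟩⟩
  rw [← e, Ok, WellFounded.fix_eq]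

/-- the coordinate `g` is good -/
def Gd (g : Crd) : Prop := Good (VA (Dep g)) g

/-! ### finite sets of positions -/

/-- positions -/
abbrev Pos : Type := Crd × ℕ × ℕ

/-- the status of `p` at a position -/
def RC.at (p : RC) (t : Pos) : St := p.st t.1 t.2.1 t.2.2

/-- `q` is stronger than `p` and has the same statuses at the positions in `Ψ` -/
def LeF (Ψ : Finset Pos) (q p : RC) : Prop := q.Le p ∧ ∀ t ∈ Ψ, q.at t = p.at t

/-- all positions in `Ψ` belong to active coordinates of `p` -/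
def PosIn (Ψ : Finset Pos) (p : RC) : Prop := ∀ t ∈ Ψ, t.1 ∈ p.Z

/-- the statuses at the positions in `Ψ` are replaced by those of `τ` -/
noncomputable def RC.put (p : RC) (Ψ : Finset Pos) (τ : Pos → St) : RC :=
  { p with st := fun g n k => by
            classical
            exact if (g, n, k) ∈ Ψ then τ (g, n, k) else p.st g n k }

/-- `τ` gives decided legal statuses at the positions in `Ψ` -/
def DecOn (Ψ : Finset Pos) (τ : Pos → St) : Prop := ∀ t ∈ Ψ, (τ t).leg (nb t.2.2) ∧ (τ t).dec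

/-- the amalgam of `r` and `p` -/
noncomputable def RC.am (r p : RC) : RC where
  ht := r.ht
  x := r.x
  z := r.z
  Pi := r.Pi
  Z := r.Z ∪ p.Z
  dl g := by
    classical
    exact if g ∈ r.Z then r.dl g else p.dl g
  st g := by
    classical
    exact if g ∈ r.Z then r.st g else p.st g

/-- the bound at the coordinate `g` can be raised, keeping finitely many statuses -/
def D2 (A : Set Crd) (g : Crd) : Prop := ∀ p, VA A p → g ∈ p.Z → ∀ Ψ, PosIn Ψ p →
  ∃ q, VA A q ∧ LeF Ψ q p ∧ p.ht ≤ q.dl g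

/-- A name of a function from `ℕ` to `ℕ`, for the conditions with coordinates in `A`. -/
structure Nam (A : Set Crd) (E : ℕ → RC → ℕ → Prop) : Prop where
  dense : ∀ j r, VA A r → ∃ s, VA A s ∧ s.Le r ∧ ∃ m, E j s m
  mono : ∀ j r s m, VA A r → VA A s → s.Le r → E j r m → E j s m

/-- `r` forces that the value at `j` is at most `m` -/
def Bd (A : Set Crd) (E : ℕ → RC → ℕ → Prop) (j m : ℕ) (p : RC) : Prop :=
  ∀ r, VA A r → r.Le p → ∃ s m', VA A s ∧ s.Le r ∧ m' ≤ m ∧ E j s m'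

/-- names of functions from `ℕ` to `ℕ` can be bounded, keeping finitely many statuses; after
changing finitely many statuses almost all bounds remain correct -/
def Bnd (A : Set Crd) : Prop := ∀ E, Nam A E → ∀ p, VA A p → ∀ Φ, PosIn Φ p →
  ∃ (q : RC) (m : ℕ → ℕ), VA A q ∧ LeF Φ q p ∧ (∀ j, Bd A E j (m j) q) ∧
    ∀ q' : RC, q'.Sim q → ∃ J, ∀ j ≥ J, Bd A E j (m j) q'

/-- the conditions -/
def PP : Type := {p : RC // VA Set.univ p}

end SSA
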