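import Pool.Agent.H77.SSA.Native
import Pool.Agent.H77.SSA.Sent
import Pool.Agent.H27.SSA.REL
import Pool.Agent.H27.SSA.PIN
import Pool.Agent.H33.SSA.ADF
import Pool.Agent.H33.SSA.SAD
import Pool.Agent.H33.SSA.PSI
import Pool.Agent.H89.SSA.CHO
import Pool.Agent.H8.SSA.EVA
import Pool.Agent.H8.SSA.DMF
import Pool.Agent.H8.SSA.SLF
import Pool.Agent.H62.SSA.MDL
import Pool.Agent.H28.SSA.LEX
import Pool.Agent.H77.SSA.fb.GET
import Pool.Agent.H77.SSA.fb.SIZ
import Pool.Agent.H77.SSA.fb.SMP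

/-!
The final assembly.
-/

set_option synthInstance.maxSize 100000

namespace SSA

open SW

theorem all_eva : EVAStmt := ssa_eva ssa_nmi ssa_rel ssa_pin ssa_bas
theorem all_dmf : DMFStmt := ssa_dmf ssa_nmi ssa_rel ssa_pin ssa_bas fb_get
theorem all_slf : SLFStmt := ssa_slf ssa_nmi ssa_rel ssa_pin ssa_bas fb_get
theorem all_smp : SMPStmt := fb_smp fb_get all_eva ssa_bas
theorem all_mdl : MDLStmt := ssa_mdl ssa_cho ssa_bas all_smp all_dmf all_slf
theorem all_fin : FINStmt := ssa_fin (ssa_lex fb_siz) fb_siz ssa_zdm ssa_adf (ssa_psi ssa_sad)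

/-- the model -/
theorem final : ∃ (N : Type) (_ : SetStr N) (_ : ZFC N), Countable N ∧
    WellFounded (fun x y : N => E x y) ∧ DominatingLtNeverSelectivelyA N :=
  main all_mdl all_fin all_ad all_dom all_sel

end SSA
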