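import Pool.Agent.H17.SSA.AD
import Pool.Agent.H17.SSA.BND
import Pool.Agent.H17.SSA.DOM
import Pool.Agent.H17.SSA.ENC
import Pool.Agent.H17.SSA.IND
import Pool.Agent.H22.SSA.D2C
import Pool.Agent.H27.SSA.AM
import Pool.Agent.H27.SSA.CATCH
import Pool.Agent.H27.SSA.SIM
import Pool.Agent.H28.SSA.LIFT
import Pool.Agent.H5.SSA.DECF
import Pool.Agent.H5.SSA.XSEQ
import Pool.Agent.H5.SSA.XX
import Pool.Agent.H53.SSA.D2S
import Pool.Agent.H53.SSA.FUS
import Pool.Agent.H53.SSA.LIM
import Pool.Agent.H80.SSA.EVAL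

/-!
Assembly of the native part.
-/

namespace SSA

theorem all_sim : SIMStmt := ssa_sim
theorem all_mono : MONOStmt := ssa_mono ssa_lift
theorem all_ext : EXTStmt := ssa_ext ssa_hx all_mono
theorem all_am : AMStmt := ssa_am all_ext
theorem all_xx : XXStmt := ssa_xx ssa_xseq all_ext
theorem all_act : ACTStmt := ssa_act all_ext
theorem all_decf : DECFStmt := ssa_decf all_sim
theorem all_catch : CATCHStmt := ssa_catch all_sim
theorem all_lim : LIMStmt := ssa_lim all_mono
theorem all_fus : FUSStmt := ssa_fus all_lim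
theorem all_bnd : BNDStmt := ssa_bnd all_fus all_decf all_catch
theorem all_d2c : D2CStmt := ssa_d2c ssa_slow
theorem all_d2s : D2SStmt := ssa_d2s all_d2c all_am all_ext ssa_res all_mono
theorem all_ind : INDStmt := ssa_ind all_bnd all_d2s
theorem all_enc : ENCStmt := ssa_enc all_sim
theorem all_eval : EVALStmt := ssa_eval all_enc
theorem all_gam : GAMStmt := ssa_gam all_eval all_enc
theorem all_ad : ADStmt := ssa_ad all_xx
theorem all_dom : DOMStmt := ssa_dom all_ind all_xx
theorem all_sel : SELStmt := ssa_sel all_gam all_ind all_xx all_act ssa_res all_am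

end SSA
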